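import Pool.Agent.NPC.Defs
import Pool.Agent.H634R2.GraphDefs

/-!
# The unweighted red-blue s-t cut problem in undirected graphs
-/

namespace Pool.Agent.NPC.H118R3.RB

open Pool.Agent.NPC Pool.Agent.NPC.H634R2

/-- The edges in the list `E` that are cut by `X`: exactly one endpoint lies in `X`. -/
def cutEdges (X : Finset ℕ) (E : List (ℕ × ℕ)) : List (ℕ × ℕ) :=
  E.filter (fun e => decide (e.1 ∈ X) != decide (e.2 ∈ X))

/-- An instance `((V, R, B), (s, t), (r, b))`: the list `V` of the vertices of a graph, the list `R`
of its red edges, the list `B` of its blue edges, the terminals `s` and `t`, and the bounds `r` and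
`b`. -/
abbrev Instance : Type := (List ℕ × List (ℕ × ℕ) × List (ℕ × ℕ)) × (ℕ × ℕ) × (ℕ × ℕ)

/-- The instance consists of a finite simple undirected graph whose edges are coloured red or blue
(every edge has exactly one colour), two distinct vertices `s`, `t`, and numbers `r`, `b` such that
some `s`-`t` cut contains at most `r` red edges and at most `b` blue edges. -/
def RedBlueCut (I : Instance) : Prop :=
  match I with
  | ((V, R, B), (s, t), (r, b)) =>
    IsGraph V (R ++ B) ∧ s ∈ V ∧ t ∈ V ∧ s ≠ t ∧
      ∃ X : Finset ℕ, (∀ v ∈ X, v ∈ V) ∧ s ∈ X ∧ t ∉ X ∧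
        (cutEdges X R).length ≤ r ∧ (cutEdges X B).length ≤ b

end Pool.Agent.NPC.H118R3.RB
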