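import Pool.Agent.H634R2.Clique
import Pool.Agent.H118R3.RBDefs

/-!
# NP-hardness of the unweighted red-blue s-t cut problem
-/

namespace Pool.Agent.NPC.H118R3.RB

open Pool.Agent.NPC Pool.Agent.NPC.H634R2

/-- The incidences of a list of edges: the list of all endpoints. -/
def inc (E : List (ℕ × ℕ)) : List ℕ := E.flatMap (fun e => [e.1, e.2])

/-- The red edges. -/
def redE (E : List (ℕ × ℕ)) : List (ℕ × ℕ) :=
  (E.map (fun e => (2 * e.1 + 2, 2 * e.2 + 2)) ++
    (inc E).zipIdx.map (fun p => (0, 2 * p.2 + 3))) ++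
    (inc E).zipIdx.map (fun p => (2 * p.2 + 3, 2 * p.1 + 2))

/-- The blue edges. -/
def blueE (V : List ℕ) : List (ℕ × ℕ) := V.map (fun v => (2 * v + 2, 1))

/-- The vertices. -/
def verts (V : List ℕ) (E : List (ℕ × ℕ)) : List ℕ :=
  0 :: 1 :: (V.map (fun v => 2 * v + 2) ++ (inc E).zipIdx.map (fun p => 2 * p.2 + 3))

/-- The instance constructed from a clique instance. -/
def red (I : (List ℕ × List (ℕ × ℕ)) × ℕ) : Instance :=
  if I.2 * (I.2 - 1) ≤ 2 * I.1.2.length then
    ((verts I.1.1 I.1.2, redE I.1.2, blueE I.1.1), (0, 1),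
      (2 * I.1.2.length - I.2 * (I.2 - 1), I.2))
  else (([0, 1], [(0, 1)], []), (0, 1), (0, 0))

/-! ### The instance is a graph -/

theorem nodup_zipIdx_map {β : Type} (l : List ℕ) (F : ℕ × ℕ → β)
    (h : ∀ p q, F p = F q → p.2 = q.2) : (l.zipIdx.map F).Nodup := by
  have h1 : (l.zipIdx.map Prod.snd).Nodup := by
    rw [List.zipIdx_map_snd]
    exact List.nodup_range'
  refine List.Nodup.map_on ?_ h1.of_map
  rintro ⟨a, i⟩ hp ⟨b, j⟩ hq hpq
  have hij : i = j := h _ _ hpq
  subst hij
  rw [List.mem_zipIdx_iff_getElem?] at hp hq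
  simp only at hp hq
  rw [hp] at hq
  rw [Option.some.inj hq]

theorem isGraph_red {V : List ℕ} {E : List (ℕ × ℕ)} (h : IsGraph V E) :
    IsGraph (verts V E) (redE E ++ blueE V) := by
  obtain ⟨hV, hE, hN⟩ := h
  refine ⟨?_, ?_, ?_⟩
  · unfold verts
    rw [List.nodup_cons, List.nodup_cons, List.nodup_append]
    refine ⟨?_, ?_, ?_, ?_, ?_⟩
    · simp
    · simp
    · exact hV.map (fun a b hab => by simpa using hab)
    · exact nodup_zipIdx_map _ _ (fun p q hpq => by omega)
    · intro a ha b hb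
      simp only [List.mem_map] at ha hb
      obtain ⟨v, _, rfl⟩ := ha
      obtain ⟨p, _, rfl⟩ := hb
      omega
  · have hinc : ∀ p ∈ (inc E).zipIdx, p.1 ∈ V := by
      rintro ⟨v, i⟩ hp
      have hv : v ∈ inc E := List.fst_mem_of_mem_zipIdx hp
      simp only [inc, List.mem_flatMap, List.mem_cons, List.not_mem_nil, or_false] at hv
      obtain ⟨e, he, rfl | rfl⟩ := hv
      · exact (hE e he).1
      · exact (hE e he).2.1
    intro e he
    unfold verts
    simp only [redE, blueE, List.mem_append, List.mem_map, List.mem_cons] at he ⊢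
    rcases he with ((⟨a, ha, rfl⟩ | ⟨p, hp, rfl⟩) | ⟨p, hp, rfl⟩) | ⟨v, hv, rfl⟩
    · refine ⟨Or.inr (Or.inr (Or.inl ⟨a.1, (hE a ha).1, rfl⟩)),
        Or.inr (Or.inr (Or.inl ⟨a.2, (hE a ha).2.1, rfl⟩)), ?_⟩
      have := (hE a ha).2.2
      simp only
      omega
    · exact ⟨Or.inl rfl, Or.inr (Or.inr (Or.inr ⟨p, hp, rfl⟩)), by simp⟩
    · refine ⟨Or.inr (Or.inr (Or.inr ⟨p, hp, rfl⟩)), Or.inr (Or.inr (Or.inl ⟨p.1, hinc p hp, rfl⟩)),
        ?_⟩
      simp only
      omega
    · exact ⟨Or.inr (Or.inr (Or.inl ⟨v, hv, rfl⟩)), Or.inr (Or.inl rfl), by simp⟩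
  · unfold redE blueE
    rw [List.map_append, List.map_append, List.map_append, List.nodup_append, List.nodup_append,
      List.nodup_append]
    simp only [List.map_map]
    refine ⟨⟨⟨?_, ?_, ?_⟩, ?_, ?_⟩, ?_, ?_⟩
    · have h1 : (List.map ((fun e : ℕ × ℕ => s(e.1, e.2)) ∘ fun e => (2 * e.1 + 2, 2 * e.2 + 2)) E) =
          (E.map (fun e => s(e.1, e.2))).map (Sym2.map (fun v => 2 * v + 2)) := by
        rw [List.map_map]
        rfl
      rw [h1]
      exact hN.map (Sym2.map.injective (fun a b hab => by simpa using hab))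
    · refine nodup_zipIdx_map _ _ ?_
      intro p q hpq
      simp only [Function.comp_apply, Sym2.eq_iff] at hpq
      omega
    · intro a ha b hb
      simp only [List.mem_map, Function.comp_apply] at ha hb
      obtain ⟨x, _, rfl⟩ := ha
      obtain ⟨y, _, rfl⟩ := hb
      simp only [ne_eq, Sym2.eq_iff]
      omega
    · refine nodup_zipIdx_map _ _ ?_
      intro p q hpq
      simp only [Function.comp_apply, Sym2.eq_iff] at hpq
      omega
    · intro a ha b hb
      simp only [List.mem_append, List.mem_map, Function.comp_apply] at ha hb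
      obtain ⟨y, _, rfl⟩ := hb
      rcases ha with ⟨x, _, rfl⟩ | ⟨x, _, rfl⟩
      · simp only [ne_eq, Sym2.eq_iff]
        omega
      · simp only [ne_eq, Sym2.eq_iff]
        omega
    · refine hV.map ?_
      intro a b hab
      simp only [Function.comp_apply, Sym2.eq_iff] at hab
      omega
    · intro a ha b hb
      simp only [List.mem_append, List.mem_map, Function.comp_apply] at ha hb
      obtain ⟨y, _, rfl⟩ := hb
      rcases ha with (⟨x, _, rfl⟩ | ⟨x, _, rfl⟩) | ⟨x, _, rfl⟩
      · simp only [ne_eq, Sym2.eq_iff]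
        omega
      · simp only [ne_eq, Sym2.eq_iff]
        omega
      · simp only [ne_eq, Sym2.eq_iff]
        omega

/-! ### Counting -/

theorem count_key (E : List (ℕ × ℕ)) (q : ℕ → Bool) :
    E.countP (fun e => q e.1 != q e.2) + (inc E).countP (fun v => !(q v)) +
      2 * E.countP (fun e => q e.1 && q e.2) = 2 * E.length := by
  induction E with
  | nil => rfl
  | cons e E ih =>
    have h1 : inc (e :: E) = e.1 :: e.2 :: inc E := rfl
    rw [h1]
    simp only [List.countP_cons, List.length_cons]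
    cases q e.1 <;> cases q e.2 <;> simp <;> omega

theorem countP_le_add {β : Type} (L : List β) (c1 c2 c3 : β → Bool)
    (h : ∀ x, c3 x = true → c1 x = true ∨ c2 x = true) :
    L.countP c3 ≤ L.countP c1 + L.countP c2 := by
  induction L with
  | nil => simp
  | cons a L ih =>
    simp only [List.countP_cons]
    have := h a
    cases h1 : c1 a <;> cases h2 : c2 a <;> cases h3 : c3 a <;> simp_all <;> omega

theorem countP_zipIdx (l : List ℕ) (p : ℕ → Bool) :
    l.zipIdx.countP (fun x => p x.1) = l.countP p := by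
  have : l.countP p = (l.zipIdx.map Prod.fst).countP p := by rw [List.zipIdx_map_fst]
  rw [this, List.countP_map]
  rfl

theorem cut_blue (X : Finset ℕ) (V : List ℕ) (h1 : 1 ∉ X) :
    (cutEdges X (blueE V)).length = V.countP (fun v => decide (2 * v + 2 ∈ X)) := by
  unfold cutEdges blueE
  rw [← List.countP_eq_length_filter, List.countP_map]
  congr 1
  funext v
  simp [h1]

theorem cut_red_ge (X : Finset ℕ) (E : List (ℕ × ℕ)) (h0 : 0 ∈ X) :
    2 * E.length ≤ (cutEdges X (redE E)).length +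
      2 * E.countP (fun e => decide (2 * e.1 + 2 ∈ X) && decide (2 * e.2 + 2 ∈ X)) := by
  unfold cutEdges redE
  rw [← List.countP_eq_length_filter, List.countP_append, List.countP_append, List.countP_map,
    List.countP_map, List.countP_map]
  have hk := count_key E (fun v => decide (2 * v + 2 ∈ X))
  have h2 := countP_le_add (inc E).zipIdx
    ((fun e : ℕ × ℕ => decide (e.1 ∈ X) != decide (e.2 ∈ X)) ∘ fun p => (0, 2 * p.2 + 3))
    ((fun e : ℕ × ℕ => decide (e.1 ∈ X) != decide (e.2 ∈ X)) ∘ fun p => (2 * p.2 + 3, 2 * p.1 + 2))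
    (fun p => !(decide (2 * p.1 + 2 ∈ X))) (by
      intro p hp
      simp only [Bool.not_eq_true', decide_eq_false_iff_not] at hp
      by_cases hm : 2 * p.2 + 3 ∈ X
      · right
        simp [hm, hp]
      · left
        simp [hm, h0])
  rw [countP_zipIdx (inc E) (fun v => !(decide (2 * v + 2 ∈ X)))] at h2
  have e1 : E.countP ((fun e : ℕ × ℕ => decide (e.1 ∈ X) != decide (e.2 ∈ X)) ∘
      fun e => (2 * e.1 + 2, 2 * e.2 + 2)) =
      E.countP (fun e => decide (2 * e.1 + 2 ∈ X) != decide (2 * e.2 + 2 ∈ X)) := rfl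
  rw [e1]
  omega

theorem cut_red_eq (X : Finset ℕ) (E : List (ℕ × ℕ)) (h0 : 0 ∈ X)
    (hm : ∀ p ∈ (inc E).zipIdx, 2 * p.2 + 3 ∈ X) :
    2 * E.length = (cutEdges X (redE E)).length +
      2 * E.countP (fun e => decide (2 * e.1 + 2 ∈ X) && decide (2 * e.2 + 2 ∈ X)) := by
  unfold cutEdges redE
  rw [← List.countP_eq_length_filter, List.countP_append, List.countP_append, List.countP_map,
    List.countP_map, List.countP_map]
  have hk := count_key E (fun v => decide (2 * v + 2 ∈ X))
  have h2 : (inc E).zipIdx.countP ((fun e : ℕ × ℕ => decide (e.1 ∈ X) != decide (e.2 ∈ X)) ∘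
      fun p => (0, 2 * p.2 + 3)) = 0 := by
    rw [List.countP_eq_zero]
    intro p hp
    simp [h0, hm p hp]
  have h3 : (inc E).zipIdx.countP ((fun e : ℕ × ℕ => decide (e.1 ∈ X) != decide (e.2 ∈ X)) ∘
      fun p => (2 * p.2 + 3, 2 * p.1 + 2)) =
      (inc E).zipIdx.countP (fun p => !(decide (2 * p.1 + 2 ∈ X))) := by
    refine List.countP_congr ?_
    intro p hp
    simp [hm p hp]
  rw [countP_zipIdx (inc E) (fun v => !(decide (2 * v + 2 ∈ X)))] at h3
  have e1 : E.countP ((fun e : ℕ × ℕ => decide (e.1 ∈ X) != decide (e.2 ∈ X)) ∘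
      fun e => (2 * e.1 + 2, 2 * e.2 + 2)) =
      E.countP (fun e => decide (2 * e.1 + 2 ∈ X) != decide (2 * e.2 + 2 ∈ X)) := rfl
  rw [e1, h2, h3]
  omega

/-! ### Cliques and the number of edges inside -/

/-- The ordered pairs of adjacent vertices of `K`. -/
def pairsIn (E : List (ℕ × ℕ)) (K : Finset ℕ) : Finset (ℕ × ℕ) :=
  (E.filter (fun e => decide (e.1 ∈ K) && decide (e.2 ∈ K))).toFinset ∪
    ((E.filter (fun e => decide (e.1 ∈ K) && decide (e.2 ∈ K))).toFinset.image Prod.swap)

theorem card_pairsIn {V : List ℕ} {E : List (ℕ × ℕ)} (h : IsGraph V E) (K : Finset ℕ) :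
    (pairsIn E K).card = 2 * E.countP (fun e => decide (e.1 ∈ K) && decide (e.2 ∈ K)) := by
  obtain ⟨_, hE, hN⟩ := h
  have hEn : E.Nodup := hN.of_map
  unfold pairsIn
  rw [Finset.card_union_of_disjoint, Finset.card_image_of_injective _ Prod.swap_injective,
    List.toFinset_card_of_nodup (hEn.filter _), ← List.countP_eq_length_filter]
  · omega
  · rw [Finset.disjoint_left]
    rintro ⟨u, v⟩ h1 h2
    rw [List.mem_toFinset, List.mem_filter] at h1
    rw [Finset.mem_image] at h2
    obtain ⟨⟨u', v'⟩, h2, h3⟩ := h2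
    rw [List.mem_toFinset, List.mem_filter] at h2
    simp only [Prod.swap_prod_mk, Prod.mk.injEq] at h3
    obtain ⟨rfl, rfl⟩ := h3
    have h4 : (v', u') = (u', v') := by
      refine List.inj_on_of_nodup_map hN h1.1 h2.1 ?_
      exact Sym2.eq_swap
    have h5 := (hE _ h2.1).2.2
    simp only [Prod.mk.injEq] at h4
    exact h5 h4.2

theorem pairsIn_subset {V : List ℕ} {E : List (ℕ × ℕ)} (h : IsGraph V E) (K : Finset ℕ) :
    pairsIn E K ⊆ K.offDiag := by
  obtain ⟨_, hE, hN⟩ := h
  intro p hp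
  simp only [pairsIn, Finset.mem_union, List.mem_toFinset, List.mem_filter, Bool.and_eq_true,
    decide_eq_true_eq, Finset.mem_image] at hp
  rw [Finset.mem_offDiag]
  rcases hp with ⟨h1, h2, h3⟩ | ⟨q, ⟨h1, h2, h3⟩, rfl⟩
  · exact ⟨h2, h3, (hE _ h1).2.2⟩
  · exact ⟨h3, h2, (hE _ h1).2.2.symm⟩

theorem mem_pairsIn {E : List (ℕ × ℕ)} {K : Finset ℕ} {u v : ℕ} :
    (u, v) ∈ pairsIn E K ↔ (u ∈ K ∧ v ∈ K) ∧ ((u, v) ∈ E ∨ (v, u) ∈ E) := by
  simp only [pairsIn, Finset.mem_union, List.mem_toFinset, List.mem_filter, Bool.and_eq_true,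
    decide_eq_true_eq, Finset.mem_image, Prod.exists, Prod.swap_prod_mk, Prod.mk.injEq]
  constructor
  · rintro (⟨h1, h2, h3⟩ | ⟨a, b, ⟨h1, h2, h3⟩, rfl, rfl⟩)
    · exact ⟨⟨h2, h3⟩, Or.inl h1⟩
    · exact ⟨⟨h3, h2⟩, Or.inr h1⟩
  · rintro ⟨⟨h2, h3⟩, h1 | h1⟩
    · exact Or.inl ⟨h1, h2, h3⟩
    · exact Or.inr ⟨v, u, ⟨h1, h3, h2⟩, rfl, rfl⟩

/-- Correctness of the reduction, for the main case. -/
theorem main_iff {V : List ℕ} {E : List (ℕ × ℕ)} {k : ℕ} (h : IsGraph V E) (hk : 2 ≤ k)
    (hk2 : k * (k - 1) ≤ 2 * E.length) :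
    HasClique V E k ↔ RedBlueCut ((verts V E, redE E, blueE V), (0, 1),
      (2 * E.length - k * (k - 1), k)) := by
  constructor
  · rintro ⟨K, hKV, hKk, hK⟩
    refine ⟨isGraph_red h, by simp [verts], by simp [verts], by simp, ?_⟩
    let X : Finset ℕ := insert 0 (K.image (fun v => 2 * v + 2) ∪
      ((inc E).zipIdx.map (fun p => 2 * p.2 + 3)).toFinset)
    have hX1 : 1 ∉ X := by
      simp only [X, Finset.mem_insert, Finset.mem_union, Finset.mem_image, List.mem_toFinset,
        List.mem_map, not_or, not_exists, not_and]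
      refine ⟨by omega, fun x _ => by omega, fun x _ => by omega⟩
    have hX0 : 0 ∈ X := by simp [X]
    have hXm : ∀ p ∈ (inc E).zipIdx, 2 * p.2 + 3 ∈ X := by
      intro p hp
      simp only [X, Finset.mem_insert, Finset.mem_union, List.mem_toFinset, List.mem_map]
      exact Or.inr (Or.inr ⟨p, hp, rfl⟩)
    have hXv : ∀ v, 2 * v + 2 ∈ X ↔ v ∈ K := by
      intro v
      simp only [X, Finset.mem_insert, Finset.mem_union, Finset.mem_image, List.mem_toFinset,
        List.mem_map]
      constructor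
      · rintro (h' | ⟨w, hw, h'⟩ | ⟨p, _, h'⟩)
        · omega
        · have : w = v := by omega
          exact this ▸ hw
        · omega
      · intro hv
        exact Or.inr (Or.inl ⟨v, hv, rfl⟩)
    refine ⟨X, ?_, hX0, hX1, ?_, ?_⟩
    · intro v hv
      simp only [X, Finset.mem_insert, Finset.mem_union, Finset.mem_image, List.mem_toFinset] at hv
      unfold verts
      simp only [List.mem_cons, List.mem_append]
      rcases hv with h' | ⟨w, hw, h'⟩ | h'
      · exact Or.inl h'
      · exact Or.inr (Or.inr (Or.inl (List.mem_map.2 ⟨w, hKV w hw, h'⟩)))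
      · exact Or.inr (Or.inr (Or.inr h'))
    · have h1 := cut_red_eq X E hX0 hXm
      have h2 := card_pairsIn h K
      have h3 : K.offDiag ⊆ pairsIn E K := by
        rintro ⟨u, v⟩ huv
        rw [Finset.mem_offDiag] at huv
        exact mem_pairsIn.2 ⟨⟨huv.1, huv.2.1⟩, hK u huv.1 v huv.2.1 huv.2.2⟩
      have h4 := Finset.card_le_card h3
      rw [Finset.offDiag_card, hKk] at h4
      have h5 : k * (k - 1) = k * k - k := by rw [Nat.mul_sub, mul_one]
      simp only [hXv] at h1
      omega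
    · rw [cut_blue X V hX1]
      simp only [hXv]
      rw [List.countP_eq_length_filter]
      have h1 : (V.filter (fun v => decide (v ∈ K))).toFinset ⊆ K := by
        intro v hv
        simpa using (List.mem_filter.1 (List.mem_toFinset.1 hv)).2
      have h2 := Finset.card_le_card h1
      rw [List.toFinset_card_of_nodup (h.1.filter _), hKk] at h2
      exact h2
  · rintro ⟨-, -, -, -, X, -, hX0, hX1, hr, hb⟩
    rw [cut_blue X V hX1] at hb
    have h1 := cut_red_ge X E hX0
    let K : Finset ℕ := (V.filter (fun v => decide (2 * v + 2 ∈ X))).toFinset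
    have hKc : K.card = V.countP (fun v => decide (2 * v + 2 ∈ X)) := by
      rw [List.countP_eq_length_filter]
      exact List.toFinset_card_of_nodup (h.1.filter _)
    have hKm : ∀ v, v ∈ K ↔ v ∈ V ∧ 2 * v + 2 ∈ X := by
      intro v
      simp [K]
    have h2 := card_pairsIn h K
    have h3 : E.countP (fun e => decide (e.1 ∈ K) && decide (e.2 ∈ K)) =
        E.countP (fun e => decide (2 * e.1 + 2 ∈ X) && decide (2 * e.2 + 2 ∈ X)) := by
      refine List.countP_congr ?_
      intro e he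
      have := h.2.1 e he
      simp only [Bool.and_eq_true, decide_eq_true_eq, hKm]
      tauto
    have h4 := Finset.card_le_card (pairsIn_subset h K)
    rw [Finset.offDiag_card] at h4
    have h5 : k * (k - 1) = k * k - k := by rw [Nat.mul_sub, mul_one]
    have h6 : k * (k - 1) ≤ (pairsIn E K).card := by omega
    have h7 : K.card ≤ k := by omega
    have h8 : K.card = k := by
      by_contra hne
      have h9 : K.card ≤ k - 1 := by omega
      have h10 : K.card * K.card - K.card ≤ (k - 1) * (k - 1) - (k - 1) := by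
        have e1 : K.card * K.card - K.card = K.card * (K.card - 1) := by
          rw [Nat.mul_sub, mul_one]
        have e2 : (k - 1) * (k - 1) - (k - 1) = (k - 1) * (k - 1 - 1) := by
          rw [Nat.mul_sub (k - 1) (k - 1) 1, mul_one]
        rw [e1, e2]
        exact Nat.mul_le_mul h9 (by omega)
      obtain ⟨j, rfl⟩ : ∃ j, k = j + 2 := ⟨k - 2, by omega⟩
      have e3 : (j + 2 - 1) * (j + 2 - 1) - (j + 2 - 1) = (j + 1) * j := by
        have : j + 2 - 1 = j + 1 := by omega
        rw [this]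
        have : (j + 1) * (j + 1) = (j + 1) * j + (j + 1) := by ring
        omega
      have e4 : (j + 2) * (j + 2 - 1) = (j + 1) * j + 2 * (j + 1) := by
        have : j + 2 - 1 = j + 1 := by omega
        rw [this]
        ring
      omega
    have h9 : pairsIn E K = K.offDiag := by
      refine Finset.eq_of_subset_of_card_le (pairsIn_subset h K) ?_
      rw [Finset.offDiag_card, h8, ← h5]
      exact h6
    refine ⟨K, fun v hv => ((hKm v).1 hv).1, h8, ?_⟩
    intro u hu v hv huv
    have h10 : (u, v) ∈ pairsIn E K := by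
      rw [h9, Finset.mem_offDiag]
      exact ⟨hu, hv, huv⟩
    exact (mem_pairsIn.1 h10).2


/-! ### The reduction is computable in polynomial time -/

theorem poly_inc {α : Type} [TEnc α] {E : α → List (ℕ × ℕ)} (hE : Poly E) :
    Poly (fun a => inc (E a)) :=
  Poly.flatMap (F := fun _ (e : ℕ × ℕ) => [e.1, e.2]) hE
    (Poly.cons (Poly.fst (Poly.snd Poly.id)) (Poly.cons (Poly.snd (Poly.snd Poly.id))
      (Poly.const [])))

theorem poly_dbl {α : Type} [TEnc α] {m : α → ℕ} (hm : Poly m) (c : ℕ) :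
    Poly (fun a => 2 * m a + c) :=
  Poly.add (Poly.mul (Poly.const 2) hm) (Poly.const c)

theorem poly_redE {α : Type} [TEnc α] {E : α → List (ℕ × ℕ)} (hE : Poly E) :
    Poly (fun a => redE (E a)) := by
  refine Poly.append (Poly.append ?_ ?_) ?_
  · exact Poly.map (F := fun _ (e : ℕ × ℕ) => (2 * e.1 + 2, 2 * e.2 + 2)) hE
      (Poly.pair (poly_dbl (Poly.fst (Poly.snd Poly.id)) 2)
        (poly_dbl (Poly.snd (Poly.snd Poly.id)) 2))
  · exact Poly.map (F := fun _ (p : ℕ × ℕ) => (0, 2 * p.2 + 3)) (Poly.zipIdx (poly_inc hE))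
      (Poly.pair (Poly.const 0) (poly_dbl (Poly.snd (Poly.snd Poly.id)) 3))
  · exact Poly.map (F := fun _ (p : ℕ × ℕ) => (2 * p.2 + 3, 2 * p.1 + 2))
      (Poly.zipIdx (poly_inc hE))
      (Poly.pair (poly_dbl (Poly.snd (Poly.snd Poly.id)) 3)
        (poly_dbl (Poly.fst (Poly.snd Poly.id)) 2))

theorem poly_red : Poly red := by
  have hV : Poly (fun I : (List ℕ × List (ℕ × ℕ)) × ℕ => I.1.1) := Poly.fst (Poly.fst Poly.id)
  have hE : Poly (fun I : (List ℕ × List (ℕ × ℕ)) × ℕ => I.1.2) := Poly.snd (Poly.fst Poly.id)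
  have hk : Poly (fun I : (List ℕ × List (ℕ × ℕ)) × ℕ => I.2) := Poly.snd Poly.id
  have hL : Poly (fun I : (List ℕ × List (ℕ × ℕ)) × ℕ => 2 * I.1.2.length) :=
    Poly.mul (Poly.const 2) (Poly.length hE)
  have hK : Poly (fun I : (List ℕ × List (ℕ × ℕ)) × ℕ => I.2 * (I.2 - 1)) :=
    Poly.mul hk (Poly.sub hk (Poly.const 1))
  refine Poly.ite (Poly.decide_le hK hL) ?_ (Poly.const _)
  refine Poly.pair (Poly.pair ?_ (Poly.pair (poly_redE hE) ?_)) (Poly.pair (Poly.const (0, 1))
    (Poly.pair (Poly.sub hL hK) hk))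
  · refine Poly.cons (Poly.const 0) (Poly.cons (Poly.const 1) (Poly.append ?_ ?_))
    · exact Poly.map (F := fun _ (v : ℕ) => 2 * v + 2) hV (poly_dbl (Poly.snd Poly.id) 2)
    · exact Poly.map (F := fun _ (p : ℕ × ℕ) => 2 * p.2 + 3) (Poly.zipIdx (poly_inc hE))
        (poly_dbl (Poly.snd (Poly.snd Poly.id)) 3)
  · exact Poly.map (F := fun _ (v : ℕ) => (2 * v + 2, 1)) hV
      (Poly.pair (poly_dbl (Poly.snd Poly.id) 2) (Poly.const 1))

theorem red_correct {I : (List ℕ × List (ℕ × ℕ)) × ℕ} (h : IsGraph I.1.1 I.1.2 ∧ 2 ≤ I.2) :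
    CLIQUE I ↔ RedBlueCut (red I) := by
  obtain ⟨⟨V, E⟩, k⟩ := I
  obtain ⟨hG, hk⟩ := h
  simp only at hG hk
  unfold CLIQUE red
  simp only [hG, true_and]
  by_cases hle : k * (k - 1) ≤ 2 * E.length
  · rw [if_pos hle]
    exact main_iff hG hk hle
  · rw [if_neg hle]
    constructor
    · rintro ⟨K, hKV, hKk, hK⟩
      exfalso
      have h2 := card_pairsIn hG K
      have h3 : K.offDiag ⊆ pairsIn E K := by
        rintro ⟨u, v⟩ huv
        rw [Finset.mem_offDiag] at huv
        exact mem_pairsIn.2 ⟨⟨huv.1, huv.2.1⟩, hK u huv.1 v huv.2.1 huv.2.2⟩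
      have h4 := Finset.card_le_card h3
      rw [Finset.offDiag_card, hKk] at h4
      have h5 : k * (k - 1) = k * k - k := by rw [Nat.mul_sub, mul_one]
      have h6 : E.countP (fun e => decide (e.1 ∈ K) && decide (e.2 ∈ K)) ≤ E.length :=
        List.countP_le_length
      omega
    · rintro ⟨-, -, -, -, X, -, h0, h1, h2, -⟩
      exfalso
      simp [cutEdges, h0, h1] at h2

theorem npHard_redBlueCut : NPHardP RedBlueCut := by
  have h : HardPr (fun _ => True) RedBlueCut :=
    hardPr_CLIQUE.trans poly_red (fun _ _ => trivial) (fun _ h => red_correct h)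
  exact h.toHardI.toNPHardP

end Pool.Agent.NPC.H118R3.RB
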