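import Pool.Agent.NPC.Dec
import Pool.Agent.H118R3.RBDefs

/-!
# Membership in NP of the unweighted red-blue s-t cut problem
-/

namespace Pool.Agent.NPC.H118R3.RB

open Pool.Agent.NPC Pool.Agent.NPC.H634R2

/-- Test: the entries are distinct. -/
def nodupB (l : List ℕ) : Bool :=
  l.zipIdx.all (fun p => l.zipIdx.all (fun q => !decide (p.2 < q.2) || !decide (p.1 = q.1)))

theorem nodupB_iff {l : List ℕ} : nodupB l = true ↔ l.Nodup := by
  rw [List.Nodup, List.pairwise_iff_getElem]
  unfold nodupB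
  simp only [List.all_eq_true, Bool.or_eq_true, Bool.not_eq_true', decide_eq_false_iff_not,
    Prod.forall, List.mem_zipIdx_iff_getElem?]
  constructor
  · intro H i j hi hj hij
    have := H l[i] i (by simp [hi]) l[j] j (by simp [hj])
    exact this.resolve_left (by omega)
  · intro H a i hi b j hj
    obtain ⟨hi', rfl⟩ := List.getElem?_eq_some_iff.1 hi
    obtain ⟨hj', rfl⟩ := List.getElem?_eq_some_iff.1 hj
    by_cases hij : i < j
    · right
      exact H i j hi' hj' hij
    · left; exact hij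

/-- Test: no unordered pair occurs twice. -/
def nodupE (l : List (ℕ × ℕ)) : Bool :=
  l.zipIdx.all (fun p => l.zipIdx.all (fun q => !decide (p.2 < q.2) ||
    !(decide (p.1 = q.1) || decide (p.1 = (q.1.2, q.1.1)))))

theorem nodupE_iff {l : List (ℕ × ℕ)} :
    nodupE l = true ↔ (l.map (fun e => s(e.1, e.2))).Nodup := by
  rw [List.Nodup, List.pairwise_map, List.pairwise_iff_getElem]
  unfold nodupE
  simp only [List.all_eq_true, Bool.or_eq_true, Bool.not_eq_true', decide_eq_false_iff_not,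
    Bool.or_eq_false_iff, List.mem_zipIdx_iff_getElem?]
  constructor
  · intro H i j hi hj hij
    have := (H (l[i], i) (by simp [hi]) (l[j], j) (by simp [hj])).resolve_left (by simp only; omega)
    simp only [ne_eq, Sym2.eq_iff]
    simp only [Prod.ext_iff] at this
    tauto
  · intro H p hi q hj
    obtain ⟨⟨a, b⟩, i⟩ := p
    obtain ⟨⟨c, d⟩, j⟩ := q
    simp only at hi hj
    obtain ⟨hi', hi⟩ := List.getElem?_eq_some_iff.1 hi
    obtain ⟨hj', hj⟩ := List.getElem?_eq_some_iff.1 hj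
    by_cases hij : i < j
    · right
      have := H i j hi' hj' hij
      rw [hi, hj] at this
      simp only [ne_eq, Sym2.eq_iff] at this
      simp only [Prod.ext_iff]
      tauto
    · left; exact hij

/-- Test: the instance is a graph. -/
def graphB (V : List ℕ) (E : List (ℕ × ℕ)) : Bool :=
  nodupB V && (E.all (fun e => (decide (e.1 ∈ V) && decide (e.2 ∈ V)) && !decide (e.1 = e.2)) &&
    nodupE E)

theorem graphB_iff {V : List ℕ} {E : List (ℕ × ℕ)} : graphB V E = true ↔ IsGraph V E := by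
  unfold graphB IsGraph
  simp only [Bool.and_eq_true, nodupB_iff, nodupE_iff, List.all_eq_true, decide_eq_true_eq,
    Bool.not_eq_true', decide_eq_false_iff_not, and_assoc, ne_eq]

/-- The verifier. -/
def ver (x : Instance × List ℕ) : Bool :=
  ((graphB x.1.1.1 (x.1.1.2.1 ++ x.1.1.2.2) &&
    (decide (x.1.2.1.1 ∈ x.1.1.1) && decide (x.1.2.1.2 ∈ x.1.1.1))) &&
    ((!decide (x.1.2.1.1 = x.1.2.1.2)) && x.2.all (fun v => decide (v ∈ x.1.1.1)))) &&
  (((decide (x.1.2.1.1 ∈ x.2)) && (!decide (x.1.2.1.2 ∈ x.2))) &&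
    (decide ((x.1.1.2.1.filter (fun e => decide (e.1 ∈ x.2) ^^ decide (e.2 ∈ x.2))).length ≤
      x.1.2.2.1) &&
    decide ((x.1.1.2.2.filter (fun e => decide (e.1 ∈ x.2) ^^ decide (e.2 ∈ x.2))).length ≤
      x.1.2.2.2)))

section PolyVer

variable {α : Type} [TEnc α]

theorem poly_nodupB {l : α → List ℕ} (hl : Poly l) : Poly (fun a => nodupB (l a)) := by
  unfold nodupB
  refine Poly.all (p := fun a p => (l a).zipIdx.all (fun q => !decide (p.2 < q.2) ||
    !decide (p.1 = q.1))) (Poly.zipIdx hl) ?_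
  refine Poly.all (p := fun (x : α × ℕ × ℕ) (q : ℕ × ℕ) => !decide (x.2.2 < q.2) ||
    !decide (x.2.1 = q.1)) ((Poly.zipIdx hl).comp (Poly.fst Poly.id)) ?_
  exact Poly.or (Poly.not (Poly.decide_lt (Poly.snd (Poly.snd (Poly.fst Poly.id)))
    (Poly.snd (Poly.snd Poly.id)))) (Poly.not (Poly.decide_eq
      (Poly.fst (Poly.snd (Poly.fst Poly.id))) (Poly.fst (Poly.snd Poly.id))))

theorem poly_nodupE {l : α → List (ℕ × ℕ)} (hl : Poly l) : Poly (fun a => nodupE (l a)) := by
  unfold nodupE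
  refine Poly.all (p := fun a p => (l a).zipIdx.all (fun q => !decide (p.2 < q.2) ||
    !(decide (p.1 = q.1) || decide (p.1 = (q.1.2, q.1.1))))) (Poly.zipIdx hl) ?_
  refine Poly.all (p := fun (x : α × (ℕ × ℕ) × ℕ) (q : (ℕ × ℕ) × ℕ) => !decide (x.2.2 < q.2) ||
    !(decide (x.2.1 = q.1) || decide (x.2.1 = (q.1.2, q.1.1))))
    ((Poly.zipIdx hl).comp (Poly.fst Poly.id)) ?_
  exact Poly.or (Poly.not (Poly.decide_lt (Poly.snd (Poly.snd (Poly.fst Poly.id)))
    (Poly.snd (Poly.snd Poly.id)))) (Poly.not (Poly.or (Poly.decide_eq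
      (Poly.fst (Poly.snd (Poly.fst Poly.id))) (Poly.fst (Poly.snd Poly.id)))
      (Poly.decide_eq (Poly.fst (Poly.snd (Poly.fst Poly.id)))
        (Poly.pair (Poly.snd (Poly.fst (Poly.snd Poly.id)))
          (Poly.fst (Poly.fst (Poly.snd Poly.id)))))))

theorem poly_graphB {V : α → List ℕ} {E : α → List (ℕ × ℕ)} (hV : Poly V) (hE : Poly E) :
    Poly (fun a => graphB (V a) (E a)) := by
  unfold graphB
  refine Poly.and (poly_nodupB hV) (Poly.and ?_ (poly_nodupE hE))
  refine Poly.all (p := fun a e => (decide (e.1 ∈ V a) && decide (e.2 ∈ V a)) &&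
    !decide (e.1 = e.2)) hE ?_
  have hV' : Poly (fun x : α × ℕ × ℕ => V x.1) := hV.comp (Poly.fst Poly.id)
  exact Poly.and (Poly.and (Poly.decide_mem (Poly.fst (Poly.snd Poly.id)) hV')
    (Poly.decide_mem (Poly.snd (Poly.snd Poly.id)) hV'))
    (Poly.not (Poly.decide_eq (Poly.fst (Poly.snd Poly.id)) (Poly.snd (Poly.snd Poly.id))))

theorem poly_cutLen {E : α → List (ℕ × ℕ)} {w : α → List ℕ} (hE : Poly E) (hw : Poly w) :
    Poly (fun a => ((E a).filter (fun e => decide (e.1 ∈ w a) ^^ decide (e.2 ∈ w a))).length) := by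
  refine Poly.length (Poly.filter (p := fun a e => decide (e.1 ∈ w a) ^^ decide (e.2 ∈ w a))
    hE ?_)
  have hw' : Poly (fun x : α × ℕ × ℕ => w x.1) := hw.comp (Poly.fst Poly.id)
  exact Poly.xor (Poly.decide_mem (Poly.fst (Poly.snd Poly.id)) hw')
    (Poly.decide_mem (Poly.snd (Poly.snd Poly.id)) hw')

end PolyVer

theorem poly_ver : Poly ver := by
  have hI : Poly (fun x : Instance × List ℕ => x.1) := Poly.fst Poly.id
  have hV : Poly (fun x : Instance × List ℕ => x.1.1.1) := Poly.fst (Poly.fst hI)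
  have hR : Poly (fun x : Instance × List ℕ => x.1.1.2.1) := Poly.fst (Poly.snd (Poly.fst hI))
  have hB : Poly (fun x : Instance × List ℕ => x.1.1.2.2) := Poly.snd (Poly.snd (Poly.fst hI))
  have hs : Poly (fun x : Instance × List ℕ => x.1.2.1.1) := Poly.fst (Poly.fst (Poly.snd hI))
  have ht : Poly (fun x : Instance × List ℕ => x.1.2.1.2) := Poly.snd (Poly.fst (Poly.snd hI))
  have hr : Poly (fun x : Instance × List ℕ => x.1.2.2.1) := Poly.fst (Poly.snd (Poly.snd hI))
  have hb : Poly (fun x : Instance × List ℕ => x.1.2.2.2) := Poly.snd (Poly.snd (Poly.snd hI))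
  have hw : Poly (fun x : Instance × List ℕ => x.2) := Poly.snd Poly.id
  refine Poly.and (Poly.and (Poly.and (poly_graphB hV (Poly.append hR hB))
    (Poly.and (Poly.decide_mem hs hV) (Poly.decide_mem ht hV)))
    (Poly.and (Poly.not (Poly.decide_eq hs ht)) ?_))
    (Poly.and (Poly.and (Poly.decide_mem hs hw) (Poly.not (Poly.decide_mem ht hw)))
      (Poly.and (Poly.decide_le (poly_cutLen hR hw) hr) (Poly.decide_le (poly_cutLen hB hw) hb)))
  exact Poly.all (p := fun x v => decide (v ∈ x.1.1.1)) hw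
    (Poly.decide_mem (Poly.snd Poly.id) (hV.comp (Poly.fst Poly.id)))

theorem ver_iff {V : List ℕ} {R B : List (ℕ × ℕ)} {s t r b : ℕ} {w : List ℕ} :
    ver (((V, R, B), (s, t), (r, b)), w) = true ↔
      IsGraph V (R ++ B) ∧ s ∈ V ∧ t ∈ V ∧ s ≠ t ∧ (∀ v ∈ w.toFinset, v ∈ V) ∧ s ∈ w.toFinset ∧
        t ∉ w.toFinset ∧ (cutEdges w.toFinset R).length ≤ r ∧
        (cutEdges w.toFinset B).length ≤ b := by
  have h : ∀ E : List (ℕ × ℕ), E.filter (fun e => decide (e.1 ∈ w) ^^ decide (e.2 ∈ w)) =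
      cutEdges w.toFinset E := by
    intro E
    unfold cutEdges
    refine List.filter_congr ?_
    intro e _
    by_cases h1 : e.1 ∈ w <;> by_cases h2 : e.2 ∈ w <;> simp [h1, h2]
  unfold ver
  simp only [Bool.and_eq_true, graphB_iff, decide_eq_true_eq, Bool.not_eq_true',
    decide_eq_false_iff_not, List.all_eq_true, h, List.mem_toFinset]
  tauto

theorem inNPP_redBlueCut : InNPP RedBlueCut := by
  refine inNPP_of poly_ver (Polynomial.X * (Polynomial.X + 1) + 1) ?_
  rintro ⟨⟨V, R, B⟩, ⟨s, t⟩, ⟨r, b⟩⟩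
  simp only [ver_iff, RedBlueCut]
  constructor
  · rintro ⟨h1, h2, h3, h4, X, h5, h6, h7, h8, h9⟩
    refine ⟨X.toList, ?_, ?_⟩
    · have e1 : X.toList.length ≤ V.length := by
        rw [Finset.length_toList]
        calc X.card ≤ V.toFinset.card := Finset.card_le_card (fun v hv => by simpa using h5 v hv)
          _ ≤ V.length := List.toFinset_card_le V
      have e2 := length_lt_sz V
      have e3 : sz V < sz (((V, R, B), (s, t), (r, b)) : Instance) := by
        simp only [sz_pair]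
        omega
      have e4 := sz_le_length_mul X.toList (sz V) (fun v hv =>
        (sz_le_of_mem (h5 v (by simpa using hv))).le)
      simp only [Polynomial.eval_add, Polynomial.eval_mul, Polynomial.eval_X,
        Polynomial.eval_one]
      refine e4.trans (Nat.add_le_add_right (Nat.mul_le_mul (by omega) (by omega)) 1)
    · rw [Finset.toList_toFinset]
      exact ⟨h1, h2, h3, h4, h5, h6, h7, h8, h9⟩
  · rintro ⟨w, -, h1, h2, h3, h4, h5, h6, h7, h8, h9⟩
    exact ⟨h1, h2, h3, h4, w.toFinset, h5, h6, h7, h8, h9⟩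

end Pool.Agent.NPC.H118R3.RB
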